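import Pool.Agent.Q36.RD.App

set_option autoImplicit false

/-!
# No congruence modulo 2 for the 6-regular partitions (MP_72e75e_nt, Q1)

For all `A ≥ 1` and `B ≥ 0` there are infinitely many `n` with `b_6(A n + B)` odd. This is the negated
form of Q1 (which is about `0 ≤ B < A` and one `n`).

The general theorem (`Pool.Agent.Q36.RD.main`): let `F` be congruent to `f_1^m f_3^n` modulo 2, let
`s = m + 3 n` be odd, and let either `n ≥ 0`, `3 m + n < 0`, or `s < 0`, `3 ∤ m`. Then the coefficients of
`F` are not all even on an arithmetic progression. Here `f_6 / f_1 ≡ f_3^2 / f_1`, `m = -1`, `n = 2`.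

Method. Let `D = q ∏ (1 - q^n)^24` modulo 2, `k` the algebraic closure of `F_2`, and let `G` be the Galois
group of the algebraic closure of `k(D)`, inside an algebraic closure of the Hahn series `k((q^ℚ))`. By
`T_p D^j ∈ F_2[D]` the functions `D(ζ q^a)`, which are reached from `D` by the steps
`(ζ, a) → (ζ^p, p a)`, `(ζ^(1/p), a / p)` for odd primes `p`, are permuted by `G`, neighbours being
mapped to neighbours. (1) `D(q^p)` is not in the perfect closure of `k(D)`, so some automorphism moves it,
although it fixes all the elements whose conjugates have `p`-integral exponents; composing such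
automorphisms, for every odd `Q` some `σ` exchanges `D(q^Q)` and some `D(ξ q^(1/Q))`. (2) The sections
of `D` modulo powers of 2 are theta functions whose conjugates have integral exponents (duplication
formula, starting files `TH693/QQ`); `σ` fixes them. (3) An algebraic function all whose conjugates have
2-integral exponents is separable, hence of the form `u^2 + D v^2` with `u`, `v` of the same kind; so
`σ` commutes with the sections modulo powers of 2. (4) Let `W` be the function
`q^s F(q^24) ≡ c^m c(q^3)^n`, `c(q)^3 = D(q^3)`. If the coefficients of `F` vanish on a class modulo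
`2^u Q`, a section modulo `2^(u+3)` of a combination of the functions `W(ξ q^(1/(3 Q)))` vanishes. Apply
`σ⁻¹`: one term has a pole which is larger than those of all the other terms, and its exponent lies in the
right class modulo `2^(u+3)` after `Q` is replaced by a suitable multiple.
-/

namespace Pool.Agent.Results.MP_72e75e_nt.NoParityCongruence

/-- the number of 6-regular partitions of `n` -/
def b6 (n : ℕ) : ℕ := Fintype.card {p : Nat.Partition n // ∀ i ∈ p.parts, ¬ 6 ∣ i}

theorem result (A B : ℕ) (hA : 1 ≤ A) (N : ℕ) : ∃ n, N ≤ n ∧ Odd (b6 (A * n + B)) := by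
  obtain ⟨n, h1, h2⟩ := Pool.Agent.Q36.RD.six A hA B N
  refine ⟨n, h1, ?_⟩
  have : b6 (A * n + B) = (Nat.Partition.restricted (A * n + B) (fun i => ¬ 6 ∣ i)).card := by
    rw [b6, Fintype.card_subtype]
    rfl
  rw [this]
  exact h2

end Pool.Agent.Results.MP_72e75e_nt.NoParityCongruence
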